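import Mathlib
import Pool.Graph.R_seed8.R475.RNP.Main

/-!
# Norm attainment on an open set of `L^p(μ, X)`

Helper file: if `f` attains its norm in `L^p(μ, X)`, `p < ∞`, and `B` is a measurable set on which `f` is not
a.e. zero, then the restriction of `f` to `B` attains its norm (equality case of Hölder's inequality for two
terms). So attainment on a ball of `L^p(μ, X)` gives attainment of all functions on a small set `B`.
-/

set_option autoImplicit false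

open MeasureTheory Set Filter
open scoped ENNReal

namespace Pool.Agent.KS6_4.RN

theorem exists_small {Ω : Type*} [MeasurableSpace Ω] {μ : Measure Ω} {C : Set Ω}
    (hC : MeasurableSet C) (h0 : 0 < μ C) (hfin : μ C < ∞)
    (hat : ∀ A ⊆ C, MeasurableSet A → 0 < μ A → ∃ B ⊆ A, MeasurableSet B ∧ 0 < μ B ∧ μ B < μ A)
    {δ : ℝ≥0∞} (hδ : 0 < δ) : ∃ B ⊆ C, MeasurableSet B ∧ 0 < μ B ∧ μ B ≤ δ := by
  have key : ∀ n : ℕ, ∃ B ⊆ C, MeasurableSet B ∧ 0 < μ B ∧ μ B ≤ μ C * 2⁻¹ ^ n := by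
    intro n
    induction n with
    | zero => exact ⟨C, Subset.rfl, hC, h0, by simp⟩
    | succ n ih =>
      obtain ⟨A, hAC, hA, hA0, hAn⟩ := ih
      obtain ⟨B, hBA, hB, hB0, hBlt⟩ := hat A hAC hA hA0
      have hfinA : μ A ≠ ∞ := ((measure_mono hAC).trans_lt hfin).ne
      have hfinB : μ B ≠ ∞ := ((measure_mono (hBA.trans hAC)).trans_lt hfin).ne
      have hsum : μ (A \ B) = μ A - μ B := measure_sdiff hBA hB.nullMeasurableSet hfinB
      have hhalf : μ A / 2 ≤ μ C * 2⁻¹ ^ (n + 1) := by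
        rw [pow_succ, ← mul_assoc, ENNReal.div_eq_inv_mul, mul_comm]
        gcongr
      by_cases hle : μ B ≤ μ A / 2
      · exact ⟨B, hBA.trans hAC, hB, hB0, hle.trans hhalf⟩
      · refine ⟨A \ B, sdiff_subset.trans hAC, hA.diff hB, ?_, ?_⟩
        · rw [hsum]
          exact tsub_pos_of_lt hBlt
        · refine le_trans ?_ hhalf
          rw [hsum]
          refine (tsub_le_tsub_left (not_le.1 hle).le _).trans ?_
          rw [ENNReal.sub_half hfinA]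
  have hd : δ / μ C ≠ 0 := (ENNReal.div_pos hδ.ne' hfin.ne).ne'
  obtain ⟨n, hn⟩ := ENNReal.exists_inv_two_pow_lt hd
  obtain ⟨B, h1, h2, h3, h4⟩ := key n
  refine ⟨B, h1, h2, h3, h4.trans ?_⟩
  calc μ C * 2⁻¹ ^ n ≤ μ C * (δ / μ C) := by gcongr
    _ ≤ δ := ENNReal.mul_div_le

variable {Ω : Type*} [MeasurableSpace Ω] {𝕜 : Type*} [RCLike 𝕜] {X : Type*} [NormedAddCommGroup X]
  [NormedSpace 𝕜 X] {Y : Type*} [NormedAddCommGroup Y]
  {p q : ℝ≥0∞} {μ : Measure Ω} {B : Set Ω}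

theorem split (hp : p ≠ ∞) (hp0 : p ≠ 0) (hB : MeasurableSet B) (f : Ω → X) :
    eLpNorm f p μ = (∫⁻ ω in B, ‖f ω‖ₑ ^ p.toReal ∂μ + ∫⁻ ω in Bᶜ, ‖f ω‖ₑ ^ p.toReal ∂μ) ^ (1 / p.toReal) := by
  rw [eLpNorm_eq_lintegral_rpow_enorm_toReal hp0 hp, lintegral_add_compl _ hB]

theorem strict (hp : p ≠ ∞) (hp1 : 1 ≤ p) (hB : MeasurableSet B) {f : Ω → X} (hf : MemLp f p μ)
    (ha : eLpNorm f p (μ.restrict B) ≠ 0) : eLpNorm f p (μ.restrict Bᶜ) < eLpNorm f p μ := by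
  have hp0 : p ≠ 0 := (zero_lt_one.trans_le hp1).ne'
  have hP : 0 < p.toReal := ENNReal.toReal_pos hp0 hp
  have hfin : eLpNorm f p (μ.restrict Bᶜ) ≠ ∞ :=
    ((eLpNorm_mono_measure f Measure.restrict_le_self).trans_lt hf.2).ne
  rw [eLpNorm_eq_lintegral_rpow_enorm_toReal hp0 hp] at ha hfin ⊢
  rw [split hp hp0 hB]
  refine ENNReal.rpow_lt_rpow ?_ (by positivity)
  have h1 : ∫⁻ ω in B, ‖f ω‖ₑ ^ p.toReal ∂μ ≠ 0 := by
    intro h
    rw [h, ENNReal.zero_rpow_of_pos (by positivity)] at ha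
    exact ha rfl
  have h2 : ∫⁻ ω in Bᶜ, ‖f ω‖ₑ ^ p.toReal ∂μ ≠ ∞ := by
    intro h
    rw [h, ENNReal.top_rpow_of_pos (by positivity)] at hfin
    exact hfin rfl
  rw [add_comm]
  exact ENNReal.lt_add_right h2 h1

theorem two_term (hp : p ≠ ∞) (hp1 : 1 ≤ p) (hpq : p⁻¹ + q⁻¹ = 1) (hB : MeasurableSet B) {f : Ω → X} {g : Ω → Y}
    (hg1 : eLpNorm g q μ ≤ 1) :
    eLpNorm g q (μ.restrict B) * eLpNorm f p (μ.restrict B) +
      eLpNorm g q (μ.restrict Bᶜ) * eLpNorm f p (μ.restrict Bᶜ) ≤ eLpNorm f p μ := by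
  have hp0 : p ≠ 0 := (zero_lt_one.trans_le hp1).ne'
  rcases hp1.eq_or_lt with rfl | hlt
  · have ha : eLpNorm g q (μ.restrict B) ≤ 1 := (eLpNorm_mono_measure g Measure.restrict_le_self).trans hg1
    have hb : eLpNorm g q (μ.restrict Bᶜ) ≤ 1 := (eLpNorm_mono_measure g Measure.restrict_le_self).trans hg1
    calc _ ≤ 1 * eLpNorm f 1 (μ.restrict B) + 1 * eLpNorm f 1 (μ.restrict Bᶜ) := by gcongr
      _ = eLpNorm f 1 μ := by
        rw [one_mul, one_mul, eLpNorm_one_eq_lintegral_enorm, eLpNorm_one_eq_lintegral_enorm,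
          eLpNorm_one_eq_lintegral_enorm, lintegral_add_compl _ hB]
  · have hpi : p⁻¹ ≠ 1 := by
      intro h
      rw [ENNReal.inv_eq_one] at h
      exact hlt.ne' h
    have hpi0 : p⁻¹ ≠ 0 := ENNReal.inv_ne_zero.2 hp
    have hqi0 : q⁻¹ ≠ 0 := by
      intro h
      rw [h, add_zero] at hpq
      exact hpi hpq
    have hq : q ≠ ∞ := ENNReal.inv_ne_zero.1 hqi0
    have hqi1 : q⁻¹ ≠ ∞ := by
      intro h
      rw [h] at hpq
      simp at hpq
    have hq0 : q ≠ 0 := ENNReal.inv_ne_top.1 hqi1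
    have hP : 0 < p.toReal := ENNReal.toReal_pos hp0 hp
    have hQ : 0 < q.toReal := ENNReal.toReal_pos hq0 hq
    have hconj : q.toReal.HolderConjugate p.toReal := by
      have h1 : (p.toReal)⁻¹ + (q.toReal)⁻¹ = 1 := by
        rw [← ENNReal.toReal_inv, ← ENNReal.toReal_inv, ← ENNReal.toReal_add (ENNReal.inv_ne_top.2 hp0) hqi1, hpq,
          ENNReal.toReal_one]
      rw [Real.holderConjugate_iff]
      refine ⟨?_, by linarith⟩
      have h2 : (q.toReal)⁻¹ < 1 := by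
        have : 0 < (p.toReal)⁻¹ := inv_pos.2 hP
        linarith
      have h3 := one_lt_inv₀ (inv_pos.2 hQ) |>.2 h2
      rwa [inv_inv] at h3
    have hs := ENNReal.inner_le_Lp_mul_Lq (Finset.univ : Finset (Fin 2))
      ![(∫⁻ ω in B, ‖g ω‖ₑ ^ q.toReal ∂μ) ^ (1 / q.toReal), (∫⁻ ω in Bᶜ, ‖g ω‖ₑ ^ q.toReal ∂μ) ^ (1 / q.toReal)]
      ![(∫⁻ ω in B, ‖f ω‖ₑ ^ p.toReal ∂μ) ^ (1 / p.toReal), (∫⁻ ω in Bᶜ, ‖f ω‖ₑ ^ p.toReal ∂μ) ^ (1 / p.toReal)]
      hconj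
    simp only [Fin.sum_univ_two, Matrix.cons_val_zero, Matrix.cons_val_one] at hs
    have e1 : ∀ x : ℝ≥0∞, (x ^ (1 / q.toReal)) ^ q.toReal = x := fun x => by
      rw [← ENNReal.rpow_mul, one_div_mul_cancel hQ.ne', ENNReal.rpow_one]
    have e2 : ∀ x : ℝ≥0∞, (x ^ (1 / p.toReal)) ^ p.toReal = x := fun x => by
      rw [← ENNReal.rpow_mul, one_div_mul_cancel hP.ne', ENNReal.rpow_one]
    rw [e1, e1, e2, e2] at hs
    rw [eLpNorm_eq_lintegral_rpow_enorm_toReal hp0 hp, eLpNorm_eq_lintegral_rpow_enorm_toReal hp0 hp,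
      eLpNorm_eq_lintegral_rpow_enorm_toReal hq0 hq, eLpNorm_eq_lintegral_rpow_enorm_toReal hq0 hq]
    refine hs.trans ?_
    rw [lintegral_add_compl _ hB, ← split hp hp0 hB, ← eLpNorm_eq_lintegral_rpow_enorm_toReal hq0 hq]
    calc eLpNorm g q μ * eLpNorm f p μ ≤ 1 * eLpNorm f p μ := by gcongr
      _ = _ := one_mul _


theorem pair_bound (hpq : p⁻¹ + q⁻¹ = 1) {ν : Measure Ω} {f : Ω → X} {g : Ω → StrongDual 𝕜 X}
    (hf : MemLp f p ν) (hg : MemLp g q ν) :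
    Integrable (fun ω => g ω (f ω)) ν ∧
      ‖∫ ω, g ω (f ω) ∂ν‖ ≤ (eLpNorm g q ν).toReal * (eLpNorm f p ν).toReal := by
  have : ENNReal.HolderTriple q p 1 := ⟨by rw [add_comm, hpq, inv_one]⟩
  have h1 : eLpNorm (fun ω => g ω (f ω)) 1 ν ≤ (1 : NNReal) * eLpNorm g q ν * eLpNorm f p ν := by
    refine eLpNorm_le_eLpNorm_mul_eLpNorm_of_nnnorm hg.1 hf.1 (fun (a : StrongDual 𝕜 X) (b : X) => a b) 1 ?_
    refine Eventually.of_forall fun ω => ?_
    rw [one_mul]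
    exact (g ω).le_opNNNorm (f ω)
  rw [ENNReal.coe_one, one_mul] at h1
  have hm : AEStronglyMeasurable (fun ω => g ω (f ω)) ν :=
    (ContinuousLinearMap.id 𝕜 (StrongDual 𝕜 X)).aestronglyMeasurable_comp₂ hg.1 hf.1
  have hfin : eLpNorm g q ν * eLpNorm f p ν < ∞ := ENNReal.mul_lt_top hg.2 hf.2
  have hi : Integrable (fun ω => g ω (f ω)) ν := memLp_one_iff_integrable.1 ⟨hm, h1.trans_lt hfin⟩
  refine ⟨hi, ?_⟩
  refine (norm_integral_le_integral_norm _).trans ?_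
  rw [← ENNReal.toReal_mul]
  have h2 : ∫ ω, ‖g ω (f ω)‖ ∂ν = (eLpNorm (fun ω => g ω (f ω)) 1 ν).toReal := by
    rw [eLpNorm_one_eq_lintegral_enorm, integral_norm_eq_lintegral_enorm hm]
  rw [h2]
  exact ENNReal.toReal_mono hfin.ne h1

/-- If `g` attains the norm of `f`, then on `B` too. -/
theorem restrict_attain (hp : p ≠ ∞) (hp1 : 1 ≤ p) (hpq : p⁻¹ + q⁻¹ = 1) (hB : MeasurableSet B)
    {f : Ω → X} {g : Ω → StrongDual 𝕜 X} (hf : MemLp f p μ) (hg : MemLp g q μ) (hg1 : eLpNorm g q μ ≤ 1)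
    (hatt : ∫ ω, g ω (f ω) ∂μ = (((eLpNorm f p μ).toReal : ℝ) : 𝕜)) (ha : eLpNorm f p (μ.restrict B) ≠ 0) :
    eLpNorm g q (μ.restrict B) ≠ 0 ∧ ∫ ω in B, g ω (f ω) ∂μ =
      (((eLpNorm g q (μ.restrict B)).toReal * (eLpNorm f p (μ.restrict B)).toReal : ℝ) : 𝕜) := by
  have hfB := hf.restrict B
  have hfC := hf.restrict Bᶜ
  have hgB := hg.restrict B
  have hgC := hg.restrict Bᶜ
  obtain ⟨i1, n1⟩ := pair_bound hpq hfB hgB
  obtain ⟨i2, n2⟩ := pair_bound hpq hfC hgC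
  have hi := (pair_bound hpq hf hg).1
  have hadd := integral_add_compl hB hi
  have h2 := two_term hp hp1 hpq hB (f := f) hg1
  have h3 := strict hp hp1 hB hf ha
  have hgC1 : eLpNorm g q (μ.restrict Bᶜ) ≤ 1 := (eLpNorm_mono_measure g Measure.restrict_le_self).trans hg1
  set α := eLpNorm g q (μ.restrict B) with hα
  set β := eLpNorm g q (μ.restrict Bᶜ) with hβ
  set a := eLpNorm f p (μ.restrict B) with haa
  set b := eLpNorm f p (μ.restrict Bᶜ) with hb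
  set N := eLpNorm f p μ with hN
  have hαf : α ≠ ∞ := hgB.2.ne
  have hβf : β ≠ ∞ := hgC.2.ne
  have haf : a ≠ ∞ := hfB.2.ne
  have hbf : b ≠ ∞ := hfC.2.ne
  have hNf : N ≠ ∞ := hf.2.ne
  have r2 : α.toReal * a.toReal + β.toReal * b.toReal ≤ N.toReal := by
    rw [← ENNReal.toReal_mul, ← ENNReal.toReal_mul, ← ENNReal.toReal_add (ENNReal.mul_ne_top hαf haf)
      (ENNReal.mul_ne_top hβf hbf)]
    exact ENNReal.toReal_mono hNf h2
  have r3 : b.toReal < N.toReal := (ENNReal.toReal_lt_toReal hbf hNf).2 h3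
  have r4 : β.toReal ≤ 1 := by
    have := ENNReal.toReal_mono ENNReal.one_ne_top hgC1
    simpa using this
  set I1 := ∫ ω in B, g ω (f ω) ∂μ with hI1
  set I2 := ∫ ω in Bᶜ, g ω (f ω) ∂μ with hI2
  have e1 : RCLike.re I1 + RCLike.re I2 = N.toReal := by
    rw [← map_add, hadd, hatt, RCLike.ofReal_re]
  have l1 := RCLike.re_le_norm I1
  have l2 := RCLike.re_le_norm I2
  refine ⟨?_, ?_⟩
  · intro h
    rw [h] at r2 n1
    have hb0 : 0 ≤ b.toReal := ENNReal.toReal_nonneg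
    simp only [ENNReal.toReal_zero, zero_mul] at n1
    nlinarith
  · have h5 : ‖I1‖ ≤ RCLike.re I1 := by linarith
    have h6 : ‖I1‖ = α.toReal * a.toReal := by linarith
    have h7 := RCLike.norm_le_re_iff_eq_norm.1 h5
    rw [h7, h6]


universe u v w

open Pool.Agent.Y694.BT (Atomless) in
/-- Attainment on a ball gives the Radon-Nikodym property. -/
theorem main {Ω : Type u} [MeasurableSpace Ω] {μ : Measure Ω} {C : Set Ω}
    (hC : MeasurableSet C) (h0 : 0 < μ C) (hfin : μ C < ∞)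
    (hat : ∀ A ⊆ C, MeasurableSet A → 0 < μ A → ∃ B ⊆ A, MeasurableSet B ∧ 0 < μ B ∧ μ B < μ A)
    {𝕜 : Type*} [RCLike 𝕜] {X : Type v} [NormedAddCommGroup X] [NormedSpace 𝕜 X]
    [NormedSpace ℝ X] [IsScalarTower ℝ 𝕜 X] [CompleteSpace X]
    {p q : ℝ≥0∞} [Fact (1 ≤ p)] [Fact (1 ≤ q)] (hp : p ≠ ∞) (hpq : p⁻¹ + q⁻¹ = 1)
    (f₀ : Lp X p μ) {δ : ℝ} (hδ : 0 < δ)
    (hatt : ∀ f : Lp X p μ, ‖f - f₀‖ < δ →
      (∃ B ⊆ C, MeasurableSet B ∧ μ B ≤ ENNReal.ofReal δ ∧ ∀ᵐ ω ∂μ, ω ∉ B → f ω = f₀ ω) →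
      ∃ g : Lp (StrongDual 𝕜 X) q μ, ‖g‖ ≤ 1 ∧ ∫ ω, g ω (f ω) ∂μ = ((‖f‖ : ℝ) : 𝕜)) :
    Pool.Agent.R475.RNP.RNP.{w} (StrongDual 𝕜 X) := by
  have hp1 : 1 ≤ p := Fact.out
  have hp0 : p ≠ 0 := (zero_lt_one.trans_le hp1).ne'
  -- a small set
  obtain ⟨η, hη, hη2⟩ := (Lp.memLp f₀).eLpNorm_indicator_le hp1 hp (half_pos hδ)
  obtain ⟨B, hBC, hB, hB0, hBη⟩ := exists_small hC h0 hfin hat (ENNReal.ofReal_pos.2 (lt_min hη hδ))
  have hsmall := hη2 B hB (hBη.trans (ENNReal.ofReal_le_ofReal (min_le_left _ _)))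
  have hBδ : μ B ≤ ENNReal.ofReal δ := hBη.trans (ENNReal.ofReal_le_ofReal (min_le_right _ _))
  have hBf : μ B ≠ ∞ := ((measure_mono hBC).trans_lt hfin).ne
  set ν : Measure Ω := (μ B)⁻¹ • μ.restrict B with hν
  have hi0 : (μ B)⁻¹ ≠ 0 := ENNReal.inv_ne_zero.2 hBf
  have hif : (μ B)⁻¹ ≠ ∞ := ENNReal.inv_ne_top.2 hB0.ne'
  have : IsProbabilityMeasure ν := ⟨by
    show ((μ B)⁻¹ • μ.restrict B) univ = 1
    rw [Measure.smul_apply, smul_eq_mul, Measure.restrict_apply_univ, ENNReal.inv_mul_cancel hB0.ne' hBf]⟩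
  have hνA : ∀ A, MeasurableSet A → ν A = (μ B)⁻¹ * μ (A ∩ B) := fun A hA => by
    show ((μ B)⁻¹ • μ.restrict B) A = _
    rw [Measure.smul_apply, smul_eq_mul, Measure.restrict_apply hA]
  have hνat : Atomless ν := by
    intro A hA hA0
    rw [hνA A hA] at hA0
    have h1 : 0 < μ (A ∩ B) := by
      by_contra h
      rw [not_lt, nonpos_iff_eq_zero] at h
      rw [h, mul_zero] at hA0
      exact lt_irrefl _ hA0
    obtain ⟨D, hD1, hD2, hD3, hD4⟩ := hat (A ∩ B) (inter_subset_right.trans hBC) (hA.inter hB) h1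
    refine ⟨D, hD1.trans inter_subset_left, hD2, ?_, ?_⟩
    · rw [hνA D hD2, inter_eq_left.2 (hD1.trans inter_subset_right)]
      exact ENNReal.mul_pos hi0 hD3.ne'
    · rw [hνA D hD2, hνA A hA, inter_eq_left.2 (hD1.trans inter_subset_right)]
      exact (ENNReal.mul_lt_mul_iff_right hi0 hif).2 hD4
  have : ENNReal.HolderConjugate q p := ⟨by rw [add_comm, hpq, inv_one]⟩
  have hμB : μ.restrict B = μ B • ν := by
    rw [hν, smul_smul, ENNReal.mul_inv_cancel hB0.ne' hBf, one_smul]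
  have hac : μ.restrict B ≪ ν := by
    rw [hμB]
    exact Measure.smul_absolutelyContinuous
  have hac2 : ν ≪ μ.restrict B := Measure.smul_absolutelyContinuous
  have hac3 : ν ≪ μ := hac2.trans Measure.absolutelyContinuous_restrict
  have hνX : ∀ h : Ω → X, eLpNorm h p ν = ((μ B)⁻¹) ^ (1 / p).toReal * eLpNorm h p (μ.restrict B) := fun h => by
    rw [hν, eLpNorm_smul_measure_of_ne_zero hi0, smul_eq_mul]
  have hνY : ∀ h : Ω → StrongDual 𝕜 X, eLpNorm h q ν =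
      ((μ B)⁻¹) ^ (1 / q).toReal * eLpNorm h q (μ.restrict B) := fun h => by
    rw [hν, eLpNorm_smul_measure_of_ne_zero hi0, smul_eq_mul]
  have hνI : ∀ h : Ω → 𝕜, ∫ ω, h ω ∂ν = (((μ B)⁻¹.toReal : ℝ) : 𝕜) * ∫ ω in B, h ω ∂μ := fun h => by
    rw [hν, integral_smul_measure, RCLike.real_smul_eq_coe_mul]
  refine Pool.Agent.R475.RNP.main hνat (p := p) (q := q) fun F => ?_
  by_cases hF0 : F = 0
  · refine ⟨0, by simp, ?_⟩
    rw [hF0, norm_zero, RCLike.ofReal_zero]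
    refine integral_eq_zero_of_ae ?_
    filter_upwards [Lp.coeFn_zero (StrongDual 𝕜 X) q ν] with ω hω
    rw [hω]; rfl
  -- extension of `F` by zero
  have hFB : MemLp F p (μ.restrict B) := by
    rw [hμB]
    exact (Lp.memLp F).smul_measure hBf
  have hFi : MemLp (B.indicator F) p μ := (memLp_indicator_iff_restrict hB).2 hFB
  have hf0i : MemLp (B.indicator f₀) p μ := (Lp.memLp f₀).indicator hB
  set h₁ : Lp X p μ := hFi.toLp with hh₁
  set h₂ : Lp X p μ := hf0i.toLp with hh₂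
  have hn2 : ‖h₂‖ ≤ δ / 2 := by
    rw [hh₂, Lp.norm_toLp]
    exact ENNReal.toReal_le_of_le_ofReal (by positivity) hsmall
  set c : ℝ := (δ / 2) / (‖h₁‖ + 1) with hc
  have hc0 : 0 < c := by positivity
  have hcn : c * ‖h₁‖ < δ / 2 := by
    rw [hc, div_mul_eq_mul_div, div_lt_iff₀ (by positivity)]
    have : 0 < δ / 2 := by positivity
    nlinarith [norm_nonneg h₁]
  set f : Lp X p μ := f₀ - h₂ + c • h₁ with hf
  have hdist : ‖f - f₀‖ < δ := by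
    have h1 : f - f₀ = c • h₁ - h₂ := by rw [hf]; abel
    rw [h1]
    refine (norm_sub_le _ _).trans_lt ?_
    rw [norm_smul, Real.norm_of_nonneg hc0.le]
    linarith
  have hfae : ∀ᵐ ω ∂μ, f ω = f₀ ω - B.indicator f₀ ω + c • B.indicator F ω := by
    filter_upwards [Lp.coeFn_add (f₀ - h₂) (c • h₁), Lp.coeFn_sub f₀ h₂, Lp.coeFn_smul c h₁,
      hFi.coeFn_toLp, hf0i.coeFn_toLp] with ω a1 a2 a3 a4 a5
    rw [hf, a1, Pi.add_apply, a2, Pi.sub_apply, a3, Pi.smul_apply, hh₁, hh₂, a4, a5]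
  have hoff : ∀ᵐ ω ∂μ, ω ∉ B → f ω = f₀ ω := by
    filter_upwards [hfae] with ω hω hωB
    rw [hω, indicator_of_notMem hωB, indicator_of_notMem hωB, smul_zero, sub_zero, add_zero]
  obtain ⟨g, hg1, hg2⟩ := hatt f hdist ⟨B, hBC, hB, hBδ, hoff⟩
  have hfB : ∀ᵐ ω ∂(μ.restrict B), f ω = c • F ω := by
    filter_upwards [ae_restrict_of_ae hfae, ae_restrict_mem hB] with ω hω hωB
    rw [hω, indicator_of_mem hωB, indicator_of_mem hωB, sub_self, zero_add]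
  have hnf : eLpNorm f p (μ.restrict B) = ENNReal.ofReal c * eLpNorm F p (μ.restrict B) := by
    rw [eLpNorm_congr_ae hfB]
    have := eLpNorm_const_smul c (F : Ω → X) p (μ.restrict B)
    rw [show (fun ω => c • F ω) = c • (F : Ω → X) from rfl, this, Real.enorm_of_nonneg hc0.le]
  have hFne : eLpNorm F p (μ.restrict B) ≠ 0 := by
    intro h
    rw [eLpNorm_eq_zero_iff hFB.1 hp0] at h
    apply hF0
    refine (Lp.eq_zero_iff_ae_eq_zero).2 (hac2 h)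
  have ha : eLpNorm f p (μ.restrict B) ≠ 0 := by
    rw [hnf]
    exact mul_ne_zero (ENNReal.ofReal_pos.2 hc0).ne' hFne
  have hgm := Lp.memLp g
  have hg1' : eLpNorm g q μ ≤ 1 := by
    rw [Lp.norm_def] at hg1
    rw [← ENNReal.toReal_le_toReal hgm.2.ne ENNReal.one_ne_top, ENNReal.toReal_one]
    exact hg1
  obtain ⟨k1, k2⟩ := restrict_attain hp hp1 hpq hB (Lp.memLp f) hgm hg1' (by rw [hg2, Lp.norm_def]) ha
  -- the pairing on `B`
  have k3 : ∫ ω in B, g ω (F ω) ∂μ =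
      (((eLpNorm g q (μ.restrict B)).toReal * (eLpNorm F p (μ.restrict B)).toReal : ℝ) : 𝕜) := by
    have h1 : ∫ ω in B, g ω (f ω) ∂μ = (c : 𝕜) * ∫ ω in B, g ω (F ω) ∂μ := by
      rw [← integral_const_mul]
      refine integral_congr_ae ?_
      filter_upwards [hfB] with ω hω
      rw [hω, ← algebraMap_smul 𝕜 c (F ω), map_smul, smul_eq_mul]
      try rfl
    have hcc : (c : 𝕜) ≠ 0 := RCLike.ofReal_ne_zero.2 hc0.ne'
    refine mul_left_cancel₀ hcc ?_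
    rw [← h1, k2, hnf, ENNReal.toReal_mul, ENNReal.toReal_ofReal hc0.le, ← RCLike.ofReal_mul]
    congr 1
    ring
  have hsc : eLpNorm g q ν * eLpNorm F p ν =
      (μ B)⁻¹ * (eLpNorm g q (μ.restrict B) * eLpNorm F p (μ.restrict B)) := by
    rw [hνX, hνY]
    have h1 : ((μ B)⁻¹) ^ (1 / q).toReal * ((μ B)⁻¹) ^ (1 / p).toReal = (μ B)⁻¹ := by
      have hq1 : 1 ≤ q := Fact.out
      have hq0 : q ≠ 0 := (zero_lt_one.trans_le hq1).ne'
      rw [← ENNReal.rpow_add _ _ hi0 hif, one_div, one_div, ← ENNReal.toReal_add (ENNReal.inv_ne_top.2 hq0)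
        (ENNReal.inv_ne_top.2 hp0), add_comm, hpq, ENNReal.toReal_one, ENNReal.rpow_one]
    rw [mul_mul_mul_comm, h1]
  have hgν : MemLp g q ν := (hgm.restrict B).smul_measure hif
  have hS0 : eLpNorm g q ν ≠ 0 := by
    rw [hνY]
    refine mul_ne_zero ?_ k1
    intro h
    rw [ENNReal.rpow_eq_zero_iff] at h
    rcases h with ⟨h, -⟩ | ⟨h, -⟩
    · exact hi0 h
    · exact hif h
  set S : ℝ := (eLpNorm g q ν).toReal with hS
  have hSp : 0 < S := ENNReal.toReal_pos hS0 hgν.2.ne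
  refine ⟨S⁻¹ • hgν.toLp, ?_, ?_⟩
  · rw [norm_smul, Lp.norm_toLp, norm_inv, Real.norm_of_nonneg hSp.le, inv_mul_cancel₀ hSp.ne']
  · have h1 : ∫ ω, (S⁻¹ • hgν.toLp : Lp (StrongDual 𝕜 X) q ν) ω (F ω) ∂ν =
        ((S⁻¹ : ℝ) : 𝕜) * ∫ ω, g ω (F ω) ∂ν := by
      rw [← integral_const_mul]
      refine integral_congr_ae ?_
      filter_upwards [Lp.coeFn_smul S⁻¹ (hgν.toLp), hgν.coeFn_toLp] with ω a1 a2
      rw [a1, Pi.smul_apply, a2, ← algebraMap_smul 𝕜 S⁻¹ (g ω)]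
      rfl
    have h2 : ∫ ω, g ω (F ω) ∂ν = (((μ B)⁻¹.toReal : ℝ) : 𝕜) * ∫ ω in B, g ω (F ω) ∂μ := hνI _
    rw [h1, h2, k3, ← RCLike.ofReal_mul, ← RCLike.ofReal_mul]
    congr 1
    have h3 := congrArg ENNReal.toReal hsc
    rw [ENNReal.toReal_mul, ENNReal.toReal_mul, ENNReal.toReal_mul] at h3
    rw [← h3, Lp.norm_def, ← mul_assoc, inv_mul_cancel₀ hSp.ne', one_mul]


open Pool.Agent.Y694.BT (Atomless) in
/-- Attainment of all functions supported in `C` gives the Radon-Nikodym property, for `p = ∞` too. -/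
theorem main_all {Ω : Type u} [MeasurableSpace Ω] {μ : Measure Ω} {C : Set Ω}
    (hC : MeasurableSet C) (h0 : 0 < μ C) (hfin : μ C < ∞)
    (hat : ∀ A ⊆ C, MeasurableSet A → 0 < μ A → ∃ B ⊆ A, MeasurableSet B ∧ 0 < μ B ∧ μ B < μ A)
    {𝕜 : Type*} [RCLike 𝕜] {X : Type v} [NormedAddCommGroup X] [NormedSpace 𝕜 X]
    [NormedSpace ℝ X] [IsScalarTower ℝ 𝕜 X] [CompleteSpace X]
    {p q : ℝ≥0∞} [Fact (1 ≤ p)] [Fact (1 ≤ q)] (hpq : p⁻¹ + q⁻¹ = 1)
    (hatt : ∀ f : Lp X p μ, (∀ᵐ ω ∂μ, ω ∉ C → f ω = 0) →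
      ∃ g : Lp (StrongDual 𝕜 X) q μ, ‖g‖ ≤ 1 ∧ ∫ ω, g ω (f ω) ∂μ = ((‖f‖ : ℝ) : 𝕜)) :
    Pool.Agent.R475.RNP.RNP.{w} (StrongDual 𝕜 X) := by
  have hp1 : 1 ≤ p := Fact.out
  have hp0 : p ≠ 0 := (zero_lt_one.trans_le hp1).ne'
  have hq1 : 1 ≤ q := Fact.out
  have hq0 : q ≠ 0 := (zero_lt_one.trans_le hq1).ne'
  have hCf : μ C ≠ ∞ := hfin.ne
  set ν : Measure Ω := (μ C)⁻¹ • μ.restrict C with hν
  have hi0 : (μ C)⁻¹ ≠ 0 := ENNReal.inv_ne_zero.2 hCf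
  have hif : (μ C)⁻¹ ≠ ∞ := ENNReal.inv_ne_top.2 h0.ne'
  have : IsProbabilityMeasure ν := ⟨by
    show ((μ C)⁻¹ • μ.restrict C) univ = 1
    rw [Measure.smul_apply, smul_eq_mul, Measure.restrict_apply_univ, ENNReal.inv_mul_cancel h0.ne' hCf]⟩
  have hνA : ∀ A, MeasurableSet A → ν A = (μ C)⁻¹ * μ (A ∩ C) := fun A hA => by
    show ((μ C)⁻¹ • μ.restrict C) A = _
    rw [Measure.smul_apply, smul_eq_mul, Measure.restrict_apply hA]
  have hνat : Atomless ν := by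
    intro A hA hA0
    rw [hνA A hA] at hA0
    have h1 : 0 < μ (A ∩ C) := by
      by_contra h
      rw [not_lt, nonpos_iff_eq_zero] at h
      rw [h, mul_zero] at hA0
      exact lt_irrefl _ hA0
    obtain ⟨D, hD1, hD2, hD3, hD4⟩ := hat (A ∩ C) inter_subset_right (hA.inter hC) h1
    refine ⟨D, hD1.trans inter_subset_left, hD2, ?_, ?_⟩
    · rw [hνA D hD2, inter_eq_left.2 (hD1.trans inter_subset_right)]
      exact ENNReal.mul_pos hi0 hD3.ne'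
    · rw [hνA D hD2, hνA A hA, inter_eq_left.2 (hD1.trans inter_subset_right)]
      exact (ENNReal.mul_lt_mul_iff_right hi0 hif).2 hD4
  have : ENNReal.HolderConjugate q p := ⟨by rw [add_comm, hpq, inv_one]⟩
  have hμC : μ.restrict C = μ C • ν := by
    rw [hν, smul_smul, ENNReal.mul_inv_cancel h0.ne' hCf, one_smul]
  have hνX : ∀ h : Ω → X, eLpNorm h p ν = ((μ C)⁻¹) ^ (1 / p).toReal * eLpNorm h p (μ.restrict C) := fun h => by
    rw [hν, eLpNorm_smul_measure_of_ne_zero hi0, smul_eq_mul]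
  have hνY : ∀ h : Ω → StrongDual 𝕜 X, eLpNorm h q ν =
      ((μ C)⁻¹) ^ (1 / q).toReal * eLpNorm h q (μ.restrict C) := fun h => by
    rw [hν, eLpNorm_smul_measure_of_ne_zero hi0, smul_eq_mul]
  have hνI : ∀ h : Ω → 𝕜, ∫ ω, h ω ∂ν = (((μ C)⁻¹.toReal : ℝ) : 𝕜) * ∫ ω in C, h ω ∂μ := fun h => by
    rw [hν, integral_smul_measure, RCLike.real_smul_eq_coe_mul]
  refine Pool.Agent.R475.RNP.main hνat (p := p) (q := q) fun F => ?_
  have hFB : MemLp F p (μ.restrict C) := by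
    rw [hμC]
    exact (Lp.memLp F).smul_measure hCf
  have hFi : MemLp (C.indicator F) p μ := (memLp_indicator_iff_restrict hC).2 hFB
  set f : Lp X p μ := hFi.toLp with hf
  have hfae : ∀ᵐ ω ∂μ, f ω = C.indicator F ω := hFi.coeFn_toLp
  obtain ⟨g, hg1, hg2⟩ := hatt f (by
    filter_upwards [hfae] with ω hω hωC
    rw [hω, indicator_of_notMem hωC])
  have hgm := Lp.memLp g
  have hg1' : eLpNorm g q μ ≤ 1 := by
    rw [Lp.norm_def] at hg1
    rw [← ENNReal.toReal_le_toReal hgm.2.ne ENNReal.one_ne_top, ENNReal.toReal_one]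
    exact hg1
  have hgν : MemLp g q ν := (hgm.restrict C).smul_measure hif
  have k1 : ∫ ω, g ω (f ω) ∂μ = ∫ ω in C, g ω (F ω) ∂μ := by
    rw [← integral_indicator hC]
    refine integral_congr_ae ?_
    filter_upwards [hfae] with ω hω
    rw [hω]
    by_cases h : ω ∈ C
    · rw [indicator_of_mem h, indicator_of_mem h]
    · rw [indicator_of_notMem h, indicator_of_notMem h, map_zero]
  have k2 : ‖f‖ = (eLpNorm F p (μ.restrict C)).toReal := by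
    rw [hf, Lp.norm_toLp, eLpNorm_indicator_eq_eLpNorm_restrict hC]
  set κ : ℝ := ((μ C) ^ (1 / q).toReal).toReal with hκ
  have hκ0 : 0 ≤ κ := ENNReal.toReal_nonneg
  have hκm : ((μ C) ^ (1 / q).toReal) * ((μ C)⁻¹) ^ (1 / q).toReal = 1 := by
    rw [← ENNReal.mul_rpow_of_nonneg _ _ ENNReal.toReal_nonneg, ENNReal.mul_inv_cancel h0.ne' hCf, ENNReal.one_rpow]
  have h1 : ((μ C)⁻¹) ^ (1 / q).toReal * ((μ C)⁻¹) ^ (1 / p).toReal = (μ C)⁻¹ := by
    rw [← ENNReal.rpow_add _ _ hi0 hif, one_div, one_div, ← ENNReal.toReal_add (ENNReal.inv_ne_top.2 hq0)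
      (ENNReal.inv_ne_top.2 hp0), add_comm, hpq, ENNReal.toReal_one, ENNReal.rpow_one]
  refine ⟨κ • hgν.toLp, ?_, ?_⟩
  · rw [norm_smul, Lp.norm_toLp, Real.norm_of_nonneg hκ0, hκ, ← ENNReal.toReal_mul, hνY, ← mul_assoc, hκm, one_mul]
    have := ENNReal.toReal_mono ENNReal.one_ne_top
      ((eLpNorm_mono_measure (p := q) g (Measure.restrict_le_self (s := C))).trans hg1')
    simpa using this
  · have e1 : ∫ ω, (κ • hgν.toLp : Lp (StrongDual 𝕜 X) q ν) ω (F ω) ∂ν = ((κ : ℝ) : 𝕜) * ∫ ω, g ω (F ω) ∂ν := by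
      rw [← integral_const_mul]
      refine integral_congr_ae ?_
      filter_upwards [Lp.coeFn_smul κ (hgν.toLp), hgν.coeFn_toLp] with ω a1 a2
      rw [a1, Pi.smul_apply, a2, ← algebraMap_smul 𝕜 κ (g ω)]
      rfl
    rw [e1, hνI, ← k1, hg2, k2, ← RCLike.ofReal_mul, ← RCLike.ofReal_mul]
    congr 1
    rw [Lp.norm_def, hνX, hκ, ← ENNReal.toReal_mul, ← ENNReal.toReal_mul]
    congr 1
    rw [← mul_assoc]
    congr 1
    conv_lhs => rw [← h1, ← mul_assoc, hκm, one_mul]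

end Pool.Agent.KS6_4.RN
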